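import Pool.Agent.H73.GMS.Stmts

/-!
# Row CLC of the board `gms` (helper93)
-/

set_option autoImplicit false

open Classical

namespace GMS

/-- the word of a certificate -/
def CLC_W {k : ℕ} (Gen : List (Fin k × Bool) → ℕ → List (Fin k × Bool))
    (w : List (Fin k × Bool)) (c : List (ℕ × Bool)) : List (Fin k × Bool) :=
  c.flatMap (fun p => bif p.2 then Gen w p.1 else FreeGroup.invRev (Gen w p.1))

theorem CLC_inv {k : ℕ} :
    Primrec (FreeGroup.invRev : List (Fin k × Bool) → List (Fin k × Bool)) := by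
  have h1 : Primrec₂ (fun (_ : List (Fin k × Bool)) (g : Fin k × Bool) => (g.1, !g.2)) :=
    ((Primrec.fst.comp Primrec.snd).pair (Primrec.not.comp (Primrec.snd.comp Primrec.snd))).to₂
  exact (Primrec.list_reverse.comp (Primrec.list_map Primrec.id h1)).of_eq fun w => rfl

theorem CLC_prim {k : ℕ} (Gen : List (Fin k × Bool) → ℕ → List (Fin k × Bool))
    (hGen : Primrec₂ Gen) :
    Primrec (fun x : List (Fin k × Bool) × List (ℕ × Bool) => CLC_W Gen x.1 x.2) := by
  have h1 : Primrec (fun y : (List (Fin k × Bool) × List (ℕ × Bool)) × (ℕ × Bool) =>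
      Gen y.1.1 y.2.1) :=
    hGen.comp (Primrec.fst.comp Primrec.fst) (Primrec.fst.comp Primrec.snd)
  have h2 : Primrec (fun y : (List (Fin k × Bool) × List (ℕ × Bool)) × (ℕ × Bool) =>
      bif y.2.2 then Gen y.1.1 y.2.1 else FreeGroup.invRev (Gen y.1.1 y.2.1)) :=
    Primrec.cond (Primrec.snd.comp Primrec.snd) h1 (CLC_inv.comp h1)
  exact Primrec.list_flatMap Primrec.snd h2.to₂

theorem clc_thm {k : ℕ} (hRED : REDStmt k) : CLCStmt k := by
  intro Gen hGen u
  have hp : PrimrecPred (fun x : List (Fin k × Bool) × List (ℕ × Bool) =>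
      FreeGroup.reduce (CLC_W Gen x.1 x.2) = u.toWord) :=
    Primrec.eq.comp (Primrec.comp hRED (CLC_prim Gen hGen)) (Primrec.const _)
  refine (GWP.PRF_ex (p := fun w c => FreeGroup.reduce (CLC_W Gen w c) = u.toWord) hp).of_eq
    fun w => ?_
  have hiff : ∀ c : List (ℕ × Bool), FreeGroup.reduce (CLC_W Gen w c) = u.toWord ↔
      FreeGroup.mk (CLC_W Gen w c) = u := by
    intro c
    rw [← FreeGroup.toWord_mk]
    exact FreeGroup.toWord_injective.eq_iff
  simp only [hiff]
  clear hiff hp
  have hcons : ∀ (p : ℕ × Bool) (c : List (ℕ × Bool)), FreeGroup.mk (CLC_W Gen w (p :: c)) =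
      (bif p.2 then FreeGroup.mk (Gen w p.1) else (FreeGroup.mk (Gen w p.1))⁻¹) *
        FreeGroup.mk (CLC_W Gen w c) := by
    intro p c
    have h1 : CLC_W Gen w (p :: c) =
        (bif p.2 then Gen w p.1 else FreeGroup.invRev (Gen w p.1)) ++ CLC_W Gen w c := by
      simp [CLC_W]
    rw [h1, ← FreeGroup.mul_mk]
    congr 1
    cases p.2
    · rw [cond_false, cond_false, FreeGroup.inv_mk]
    · rfl
  constructor
  · rintro ⟨c, rfl⟩
    induction c with
    | nil =>
      have h1 : FreeGroup.mk (CLC_W Gen w []) = 1 := rfl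
      rw [h1]
      exact Subgroup.one_mem _
    | cons p c ih =>
      rw [hcons]
      refine Subgroup.mul_mem _ ?_ ?_
      · have h2 : FreeGroup.mk (Gen w p.1) ∈
            Subgroup.closure (Set.range (fun n : ℕ => FreeGroup.mk (Gen w n))) :=
          Subgroup.subset_closure ⟨p.1, rfl⟩
        cases p.2
        · exact Subgroup.inv_mem _ h2
        · exact h2
      · exact ih
  · intro hu
    induction hu using Subgroup.closure_induction_left with
    | one => exact ⟨[], rfl⟩
    | mul_left x hx y hy ih =>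
      obtain ⟨n, rfl⟩ := hx
      obtain ⟨c, hc⟩ := ih
      exact ⟨(n, true) :: c, by rw [hcons, hc]; rfl⟩
    | inv_mul_cancel x hx y hy ih =>
      obtain ⟨n, rfl⟩ := hx
      obtain ⟨c, hc⟩ := ih
      exact ⟨(n, false) :: c, by rw [hcons, hc]; rfl⟩

end GMS
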